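import Pool.Agent.Y163.MW.Asm

/-!
# MP_855f4c_ag: the zero-one law for the weights of the powers of `X`
-/

set_option autoImplicit false

open Module Filter Topology

universe u v w

namespace Pool.Agent.Results.MP_855f4c_ag.ZeroOneLaw

open Pool.Agent.H914 Pool.Agent.Y143 Pool.Agent.Y163.MW

/-- **The zero-one law.** Let `K` be a local field whose residue field has `q` elements, and let `T` be
the `ℓ`-adic cohomology of the smooth proper varieties over `K`, with its known properties. Let `X`
be a variety, and for every `n` let `M n` be the monodromy filtration of the whole cohomology of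
`X^(n + 1)`. Consider the proportion of the Frobenius eigenvalues on the graded pieces of `M n`
whose weight is the one predicted by the weight-monodromy conjecture. If all the `H^m(X)` are mw
pure, this proportion is `1` for all `n`; if they are not, it converges to `0`. -/
theorem result {K : Type u} [Field K] {Ω : Type w} [Field Ω] [CharZero Ω] [IsAlgClosed Ω]
    {T : Theory.{u, v, w} K Ω} {q : ℕ} (hq : 1 < q) (hT : T.IsLocal q) (X : SmVar.{u} K)
    (M : ∀ n, ℤ → Submodule Ω (T.H (pow X n)).V)
    (hM : ∀ n, IsMonodromyFiltrationOn ⊤ (T.H (pow X n)).N (M n)) :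
    ((∀ m, (T.H X).MWPure q m) →
      ∀ n, (T.H (pow X n)).right q (M n) = finrank Ω (T.H (pow X n)).V) ∧
    (¬ (∀ m, (T.H X).MWPure q m) → Tendsto (fun n : ℕ =>
      ((T.H (pow X n)).right q (M n) : ℝ) / (finrank Ω (T.H (pow X n)).V : ℝ)) atTop (𝓝 0)) :=
  zero_one hT hq X M hM

end Pool.Agent.Results.MP_855f4c_ag.ZeroOneLaw
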